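import Pool.Agent.W93.PG6
import Pool.Agent.H560R3.GB.Defs

/-!
# Goldbach pairs in short windows, and the least summand, for almost all integers with independent digits

Definitions used (in `Pool.Agent.H560R3.GB`): `C₂`: the twin prime constant
`∏_{p > 2} (1 - 1 / (p - 1) ^ 2)`; `sing m`: the singular series `2 C₂ ∏_{p ∣ m, p > 2} (p - 1) / (p - 2)`.
-/

set_option autoImplicit false

namespace Pool.Agent.Results.MP_bae66e_nt.RandomDigitWindows

open Finset Pool.Agent.H560R3.GB

/-- The number of primes `p` with `y₁ < p ≤ y₂` such that `m - p` is a prime. -/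
def R (m y₁ y₂ : ℕ) : ℕ := ((Ioc y₁ y₂).filter (fun p => p.Prime ∧ (m - p).Prime)).card

/-- (1) There is a prime `p ≤ m / log ^ A m` such that `m - p` is a prime (thus `g(m) ≤ m / log ^ A m`
in the notation of the problem); (2) in every window `(y₁, y₂]` of a length of at least `m / log ^ A m`
with `0 ≤ y₁ < y₂ ≤ m` the number of primes `p` such that `m - p` is a prime agrees with
`sing m * (y₂ - y₁) / log ^ 2 m` up to a relative error of at most `ε`. -/
def Holds (ε : ℝ) (A m : ℕ) : Prop :=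
  (∃ p : ℕ, p.Prime ∧ (m - p).Prime ∧ (p : ℝ) ≤ m / Real.log m ^ A) ∧
  ∀ y₁ y₂ : ℕ, y₁ < y₂ → y₂ ≤ m → (m : ℝ) / Real.log m ^ A ≤ (y₂ : ℝ) - y₁ →
    |(R m y₁ y₂ : ℝ) - sing m * ((y₂ : ℝ) - y₁) / Real.log m ^ 2| ≤ ε * (sing m * ((y₂ : ℝ) - y₁) / Real.log m ^ 2)

/-- The integer `c + d 0 + d 1 * b + ... + d (k - 1) * b ^ (k - 1)`. -/
def value (b : ℕ) (c : ℤ) {k : ℕ} (d : Fin k → ℕ) : ℤ := c + ∑ j, (d j : ℤ) * (b : ℤ) ^ (j : ℕ)

open Classical in
/-- The probability of the event `E` if the digits `d 0, ..., d (k - 1)` are chosen independently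
of each other from `{0, ..., H - 1}`, and `d j` is equal to `a` with probability `w j a`. -/
noncomputable def Prob (H k : ℕ) (w : ℕ → ℕ → ℝ) (E : (Fin k → ℕ) → Prop) : ℝ :=
  ∑ d ∈ Fintype.piFinset (fun _ : Fin k => range H), if E d then ∏ j : Fin k, w j (d j) else 0

/-- Let `b ≥ 2`, `H`, `B`, `A`, `U`, `η > 0` and `ε > 0` be fixed and let `k` be large. Let the digits
`d 0, ..., d (k - 1)` be independent random elements of `{0, ..., H - 1}` with arbitrary distributions
(which may depend on the position and on `k`), none of which takes a value with a probability larger than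
`1 - η`, and let `c` be an arbitrary integer with `|c| ≤ B b ^ k`. Then, with a probability of at least
`1 - 1 / k ^ U`, the integer `m = c + ∑ d j b ^ j` has the following property: if `m` is positive and even,
then there is a prime `p ≤ m / log ^ A m` such that `m - p` is a prime, and in all windows of length at least
`m / log ^ A m` the number of such primes is as predicted, up to a relative error of at most `ε`. -/
theorem result (b H B A U : ℕ) (hb : 2 ≤ b) (η ε : ℝ) (hη : 0 < η) (hε : 0 < ε) :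
    ∃ k₀ : ℕ, ∀ k : ℕ, k₀ ≤ k → ∀ w : ℕ → ℕ → ℝ,
      (∀ j < k, (∀ a, 0 ≤ w j a ∧ w j a ≤ 1 - η) ∧ ∑ a ∈ range H, w j a = 1) →
      ∀ c : ℤ, |c| ≤ B * (b : ℤ) ^ k →
        Prob H k w (fun d => 0 < value b c d ∧ Even (value b c d) ∧ ¬ Holds ε A (value b c d).toNat) ≤
          1 / (k : ℝ) ^ U := by
  classical
  obtain ⟨n1, h1⟩ := Pool.Agent.H373R2.T7.ev_L' 2
  obtain ⟨n2, h2⟩ := Pool.Agent.H373R2.T7.ev_log' (A + 1) 1
  obtain ⟨k₀, h0⟩ := Pool.Agent.W93.PG.pg_windows b H B (A + 1) U (n1 + n2 + 4) hb η (min ε (1 / 2)) hη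
    (lt_min hε (by norm_num)) (Holds ε A) (by
      intro m hm _ hwin
      have a1 := h1 m (by omega)
      have a2 := h2 m (by omega)
      have hm4 : (4 : ℝ) ≤ m := by exact_mod_cast (by omega : 4 ≤ m)
      have hm0 : (0 : ℝ) < m := by linarith
      rw [one_mul] at a2
      obtain ⟨M, hM⟩ : ∃ M, M = Real.log (m : ℝ) := ⟨_, rfl⟩
      have hs := Pool.Agent.W93.GB.one_le_sing m
      unfold Pool.Agent.W93.PG.WinP at hwin
      unfold Holds
      rw [← hM] at a1 a2 hwin ⊢
      have hM1 : 1 ≤ M := by linarith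
      have hM0 : 0 < M := by linarith
      have hmm : √(m : ℝ) * √(m : ℝ) = m := Real.mul_self_sqrt hm0.le
      have hsm0 : 0 < √(m : ℝ) := Real.sqrt_pos.2 hm0
      have hle : (m : ℝ) / M ^ (A + 1) ≤ m / M ^ A := by
        apply div_le_div_of_nonneg_left hm0.le (by positivity)
        exact pow_le_pow_right₀ hM1 (by omega)
      have hR : ∀ y₁ y₂, Pool.Agent.W93.PG.cnt m y₁ y₂ = R m y₁ y₂ := fun _ _ => rfl
      simp only [hR] at hwin
      have hsm : √(m : ℝ) ≤ m / M ^ (A + 1) := by
        rw [le_div_iff₀ (by positivity)]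
        calc √(m : ℝ) * M ^ (A + 1) ≤ √(m : ℝ) * √(m : ℝ) := mul_le_mul_of_nonneg_left a2 hsm0.le
          _ = m := hmm
      have hsm2 : 2 ≤ √(m : ℝ) := by
        apply Real.le_sqrt_of_sq_le
        linarith
      constructor
      · obtain ⟨y, hy⟩ : ∃ y, y = ⌈(m : ℝ) / M ^ (A + 1)⌉₊ := ⟨_, rfl⟩
        have hy1 : (m : ℝ) / M ^ (A + 1) ≤ y := by rw [hy]; exact Nat.le_ceil _
        have hy2 : (y : ℝ) ≤ m / M ^ (A + 1) + 1 := by rw [hy]; exact (Nat.ceil_lt_add_one (by positivity)).le
        have hy3 : (y : ℝ) ≤ m / M ^ A := by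
          have e : (m : ℝ) / M ^ A = m / M ^ (A + 1) * M := by rw [pow_succ]; field_simp
          have h5 : (m : ℝ) / M ^ (A + 1) * 2 ≤ m / M ^ (A + 1) * M := mul_le_mul_of_nonneg_left a1 (by positivity)
          rw [e]
          linarith
        have hy4 : y ≤ m := by
          have h5 : (m : ℝ) / M ^ A ≤ m := div_le_self hm0.le (one_le_pow₀ hM1)
          exact_mod_cast hy3.trans h5
        have hy0 : 0 < y := by
          have : (0 : ℝ) < y := by linarith
          exact_mod_cast this
        have hw := hwin 0 y hy0 hy4 (by push_cast; linarith)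
        have hmain : 0 < sing m * ((y : ℝ) - (0 : ℕ)) / M ^ 2 := by
          have : (0 : ℝ) < (y : ℝ) - (0 : ℕ) := by push_cast; linarith
          positivity
        have h6 : |(R m 0 y : ℝ) - sing m * ((y : ℝ) - (0 : ℕ)) / M ^ 2| ≤ 1 / 2 * (sing m * ((y : ℝ) - (0 : ℕ)) / M ^ 2) :=
          hw.trans (mul_le_mul_of_nonneg_right (min_le_right _ _) hmain.le)
        have h7 : (0 : ℝ) < R m 0 y := by
          rw [abs_le] at h6
          linarith [h6.1]
        have h8 : 0 < R m 0 y := by exact_mod_cast h7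
        unfold R at h8
        rw [card_pos] at h8
        obtain ⟨p, hp⟩ := h8
        rw [mem_filter, mem_Ioc] at hp
        have h9 : (p : ℝ) ≤ y := by exact_mod_cast hp.1.2
        exact ⟨p, hp.2.1, hp.2.2, h9.trans hy3⟩
      · intro y₁ y₂ h12 hy2 hΔ
        have hw := hwin y₁ y₂ h12 hy2 (hle.trans hΔ)
        refine hw.trans ?_
        apply mul_le_mul_of_nonneg_right (min_le_left _ _)
        have h5 : (0 : ℝ) ≤ (y₂ : ℝ) - y₁ := by
          have : (y₁ : ℝ) ≤ y₂ := by exact_mod_cast h12.le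
          linarith
        positivity)
  refine ⟨k₀, fun k hk w hw c hc => ?_⟩
  have hval : ∀ d : Fin k → ℕ, value b c d = c + (Pool.Agent.W93.RD.val b d : ℤ) := by
    intro d
    unfold value Pool.Agent.W93.RD.val
    push_cast
    rfl
  have h2 := h0 k hk w (fun j hj a => ((hw j hj).1 a).1) (fun j hj a => ((hw j hj).1 a).2) (fun j hj => (hw j hj).2) c hc
    (fun d => 0 < value b c d ∧ Even (value b c d) ∧ ¬ Holds ε A (value b c d).toNat) (Classical.decPred _) (by
      intro d _ hd
      simp only [hval] at hd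
      exact ⟨hd.1, hd.2.1.two_dvd, hd.2.2⟩)
  refine le_trans (le_of_eq ?_) h2
  unfold Prob Pool.Agent.W93.RD.Str Pool.Agent.W93.RD.pw
  apply sum_congr rfl
  intro d _
  congr

end Pool.Agent.Results.MP_bae66e_nt.RandomDigitWindows
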